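import Pool.Agent.H59.PG.Stmts

set_option autoImplicit false

namespace Pool.PG

theorem slc_row : SLCStmt := by
  intro C x ts hts
  refine ⟨fun t ht => ?_, by simp [sel], fun P => ?_⟩
  · simp only [sel, List.mem_map, List.mem_filter, List.mem_range] at ht
    obtain ⟨k, ⟨hk, _⟩, rfl⟩ := ht
    have hk' : k < ts.length := by omega
    rw [List.getD_eq_getElem _ _ hk']
    exact List.getElem_mem hk'
  · simp only [sel, List.mem_map, List.mem_filter, List.mem_range]
    constructor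
    · rintro ⟨t, ⟨k, ⟨hk, hx⟩, rfl⟩, hP⟩
      exact ⟨k, hk, hx, hP⟩
    · rintro ⟨k, hk, hx, hP⟩
      exact ⟨_, ⟨k, ⟨hk, hx⟩, rfl⟩, hP⟩

end Pool.PG
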